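import Pool.Agent.Q126.TD.Emb

/-!
Embeddings in `ℚ_p` for which finitely many given elements are integral.
-/

set_option autoImplicit false

namespace Pool.Agent.Q308.TC

open MvPolynomial Pool.Agent.H927R2.RD Pool.Agent.Q126.TD

section

variable {r : ℕ} {t : Fin r → ℂ}

/-- Clearing denominators. -/
theorem clear (ht : AlgebraicIndependent ℚ t)
    (q : Polynomial (IntermediateField.adjoin ℚ (Set.range t))) :
    ∃ (b : MvPolynomial (Fin r) ℤ) (q' : Polynomial (MvPolynomial (Fin r) ℤ)), b ≠ 0 ∧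
      q'.map (toAdj t) = Polynomial.C (toAdj t b) * q := by
  letI : Algebra (MvPolynomial (Fin r) ℤ) (IntermediateField.adjoin ℚ (Set.range t)) :=
    (toAdj t).toAlgebra
  have halg : algebraMap (MvPolynomial (Fin r) ℤ) (IntermediateField.adjoin ℚ (Set.range t)) =
    toAdj t := rfl
  have hinj : Function.Injective (algebraMap (MvPolynomial (Fin r) ℤ)
      (IntermediateField.adjoin ℚ (Set.range t))) := T14.toAdj_injective t ht
  haveI : FaithfulSMul (MvPolynomial (Fin r) ℤ) (IntermediateField.adjoin ℚ (Set.range t)) :=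
    (faithfulSMul_iff_algebraMap_injective _ _).mpr hinj
  haveI : IsFractionRing (MvPolynomial (Fin r) ℤ) (IntermediateField.adjoin ℚ (Set.range t)) :=
    IsFractionRing.of_field _ _ (T14.toAdj_surj t)
  obtain ⟨b, hb, h⟩ := IsLocalization.integerNormalization_spec
    (nonZeroDivisors (MvPolynomial (Fin r) ℤ)) q
  refine ⟨b, _, mem_nonZeroDivisors_iff_ne_zero.mp hb, h.trans ?_⟩
  rw [Algebra.smul_def]
  rfl

/-- Elements of the field as fractions. -/
theorem exists_frac (ht : AlgebraicIndependent ℚ t) {θ : ℂ}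
    (hθ : IsIntegral (IntermediateField.adjoin ℚ (Set.range t)) θ) {x : ℂ}
    (hx : x ∈ IntermediateField.adjoin (IntermediateField.adjoin ℚ (Set.range t)) {θ}) :
    ∃ (D : MvPolynomial (Fin r) ℤ) (A : Polynomial (MvPolynomial (Fin r) ℤ)), D ≠ 0 ∧
      ((toAdj t D : IntermediateField.adjoin ℚ (Set.range t)) : ℂ) * x =
        Polynomial.aeval θ (A.map (toAdj t)) := by
  set K := IntermediateField.adjoin ℚ (Set.range t) with hK
  have h1 : x ∈ Algebra.adjoin K ({θ} : Set ℂ) := by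
    rw [← IntermediateField.adjoin_simple_toSubalgebra_of_isAlgebraic hθ.isAlgebraic]
    exact hx
  rw [Algebra.adjoin_singleton_eq_range_aeval] at h1
  obtain ⟨q, rfl⟩ := h1
  obtain ⟨D, A, hD, hA⟩ := clear ht q
  refine ⟨D, A, hD, ?_⟩
  rw [hA, map_mul, Polynomial.aeval_C]
  rfl

/-- the core: a simple root modulo `p` gives the embedding -/
theorem core' {s : Finset ℂ} {θ : ℂ}
    {P : Polynomial (MvPolynomial (Fin r) ℤ)} {g : MvPolynomial (Fin r) ℤ}
    (ht : AlgebraicIndependent ℚ t) (hg : g ≠ 0)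
    (hθ : IsIntegral (IntermediateField.adjoin ℚ (Set.range t)) θ)
    (hP : P.map (toAdj t) = Polynomial.C (toAdj t g) *
        minpoly (IntermediateField.adjoin ℚ (Set.range t)) θ)
    (hs : ∀ x ∈ s, x ∈ IntermediateField.adjoin (IntermediateField.adjoin ℚ (Set.range t)) {θ})
    (a : Fin r → ℤ) {p : ℕ} [Fact p.Prime] {b : ℤ}
    (hb : (p : ℤ) ∣ (P.map (MvPolynomial.eval a)).eval b)
    (hb' : ¬ (p : ℤ) ∣ (Polynomial.derivative (P.map (MvPolynomial.eval a))).eval b)
    (t' : Fin r → ℤ_[p]) (ht' : AlgebraicIndependent ℚ (fun i => (t' i : ℚ_[p])))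
    (ht'a : ∀ i, (PadicInt.toZMod (t' i) : ZMod p) = (a i : ZMod p)) :
    ∃ χ : Subfield.closure (s : Set ℂ) →+* ℚ_[p], ∀ (x : Subfield.closure (s : Set ℂ))
      (D : MvPolynomial (Fin r) ℤ) (A : Polynomial (MvPolynomial (Fin r) ℤ)),
      ¬ (p : ℤ) ∣ MvPolynomial.eval a D →
      ((toAdj t D : IntermediateField.adjoin ℚ (Set.range t)) : ℂ) * (x : ℂ) =
        Polynomial.aeval θ (A.map (toAdj t)) → ‖χ x‖ ≤ 1 := by
  classical
  set φ : MvPolynomial (Fin r) ℤ →+* ℤ_[p] := MvPolynomial.eval₂Hom (Int.castRingHom ℤ_[p]) t'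
    with hφ
  set F : Polynomial ℤ_[p] := P.map φ with hF
  have hcomp : (PadicInt.toZMod (p := p)).comp φ =
      (Int.castRingHom (ZMod p)).comp (MvPolynomial.eval a) := by
    apply MvPolynomial.ringHom_ext
    · intro n
      simp [hφ]
    · intro i
      simp [hφ, ht'a]
  have hred : ∀ Q : Polynomial (MvPolynomial (Fin r) ℤ),
      PadicInt.toZMod ((Q.map φ).eval (b : ℤ_[p])) =
        (((Q.map (MvPolynomial.eval a)).eval b : ℤ) : ZMod p) := by
    intro Q
    have h1 : PadicInt.toZMod ((Q.map φ).eval (b : ℤ_[p])) =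
        ((Q.map φ).map PadicInt.toZMod).eval (PadicInt.toZMod (b : ℤ_[p])) := by
      rw [Polynomial.eval_map_apply]
    have h2 : (((Q.map (MvPolynomial.eval a)).eval b : ℤ) : ZMod p) =
        ((Q.map (MvPolynomial.eval a)).map (Int.castRingHom (ZMod p))).eval
          ((Int.castRingHom (ZMod p)) b) := by
      rw [Polynomial.eval_map_apply]; rfl
    rw [h1, h2, Polynomial.map_map, Polynomial.map_map, hcomp]
    simp
  have hroot0 : ‖F.eval (b : ℤ_[p])‖ < 1 := by
    have h1 : PadicInt.toZMod (F.eval (b : ℤ_[p])) = 0 := by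
      rw [hF, hred, ZMod.intCast_zmod_eq_zero_iff_dvd]
      exact hb
    have h2 : F.eval (b : ℤ_[p]) ∈ RingHom.ker (PadicInt.toZMod (p := p)) := h1
    rw [PadicInt.ker_toZMod, IsLocalRing.mem_maximalIdeal, PadicInt.mem_nonunits] at h2
    exact h2
  have hder1 : ‖F.derivative.eval (b : ℤ_[p])‖ = 1 := by
    have h1 : PadicInt.toZMod (F.derivative.eval (b : ℤ_[p])) ≠ 0 := by
      rw [hF, Polynomial.derivative_map, hred, ← Polynomial.derivative_map, Ne,
        ZMod.intCast_zmod_eq_zero_iff_dvd]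
      exact hb'
    by_contra hne
    apply h1
    have h2 : F.derivative.eval (b : ℤ_[p]) ∈ RingHom.ker (PadicInt.toZMod (p := p)) := by
      rw [PadicInt.ker_toZMod, IsLocalRing.mem_maximalIdeal, PadicInt.mem_nonunits]
      exact lt_of_le_of_ne (PadicInt.norm_le_one _) hne
    exact h2
  obtain ⟨z, hz, -⟩ := hensels_lemma (p := p) (F := F) (a := (b : ℤ_[p])) (by
    rw [Polynomial.coe_aeval_eq_eval]
    show ‖F.eval (b : ℤ_[p])‖ < ‖F.derivative.eval (b : ℤ_[p])‖ ^ 2
    rw [hder1]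
    simpa using hroot0)
  rw [Polynomial.coe_aeval_eq_eval] at hz
  -- the field embedding
  set K := IntermediateField.adjoin ℚ (Set.range t) with hK
  let ψ : K →+* ℚ_[p] := (T15.psi ht ht' : K →+* ℚ_[p])
  have hψ : ∀ g' : MvPolynomial (Fin r) ℤ, ψ (toAdj t g') = ((φ g' : ℤ_[p]) : ℚ_[p]) := by
    intro g'
    have h1 := T15.psi_toAdj ht ht' g'
    rw [show ψ (toAdj t g') = T15.psi ht ht' (toAdj t g') from rfl, h1]
    have h2 : (PadicInt.Coe.ringHom (p := p)).comp φ =
        MvPolynomial.eval₂Hom (Int.castRingHom ℚ_[p]) (fun i => (t' i : ℚ_[p])) := by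
      apply MvPolynomial.ringHom_ext
      · intro n
        simp [hφ]
      · intro i
        simp only [hφ, RingHom.comp_apply, coe_eval₂Hom, eval₂_X]
        rfl
    exact (congrArg (fun f : MvPolynomial (Fin r) ℤ →+* ℚ_[p] => f g') h2).symm
  have hh : ψ.comp (toAdj t) = (PadicInt.Coe.ringHom (p := p)).comp φ := RingHom.ext hψ
  have hmin : ((minpoly K θ).map ψ).eval (z : ℚ_[p]) = 0 := by
    have h1 : (P.map (toAdj t)).map ψ = F.map (PadicInt.Coe.ringHom (p := p)) := by
      rw [Polynomial.map_map, hF, Polynomial.map_map, hh]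
    have h2 : ((P.map (toAdj t)).map ψ).eval (z : ℚ_[p]) = 0 := by
      rw [h1]
      have : (z : ℚ_[p]) = PadicInt.Coe.ringHom z := rfl
      rw [this, Polynomial.eval_map_apply, hz, map_zero]
    rw [hP, Polynomial.map_mul, Polynomial.map_C, Polynomial.eval_mul, Polynomial.eval_C] at h2
    have h3 : ψ (toAdj t g) ≠ 0 := by
      rw [Ne, map_eq_zero]
      intro h0
      exact hg (T15.toAdj_injective ht (by rw [h0, map_zero]))
    exact (mul_eq_zero.1 h2).resolve_left h3
  let _ : Algebra K ℚ_[p] := ψ.toAlgebra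
  have hmem : (z : ℚ_[p]) ∈ (minpoly K θ).aroots ℚ_[p] := by
    rw [Polynomial.mem_aroots]
    refine ⟨minpoly.ne_zero hθ, ?_⟩
    rw [Polynomial.aeval_def, Polynomial.eval₂_eq_eval_map]
    exact hmin
  let χ : IntermediateField.adjoin K {θ} →ₐ[K] ℚ_[p] :=
    (IntermediateField.algHomAdjoinIntegralEquiv K hθ).symm ⟨(z : ℚ_[p]), hmem⟩
  have hχ : χ (IntermediateField.AdjoinSimple.gen K θ) = (z : ℚ_[p]) :=
    IntermediateField.algHomAdjoinIntegralEquiv_symm_apply_gen K hθ _
  have hle : Subfield.closure (s : Set ℂ) ≤ (IntermediateField.adjoin K {θ}).toSubfield := by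
    rw [Subfield.closure_le]
    intro x hx
    exact hs x hx
  refine ⟨(χ : IntermediateField.adjoin K {θ} →+* ℚ_[p]).comp (Subfield.inclusion hle), ?_⟩
  intro x D A hD hxA
  set y : IntermediateField.adjoin K {θ} := Subfield.inclusion hle x with hy
  have hyx : (y : ℂ) = x := rfl
  have e1 : algebraMap K (IntermediateField.adjoin K {θ}) (toAdj t D) * y =
      Polynomial.aeval (IntermediateField.AdjoinSimple.gen K θ) (A.map (toAdj t)) := by
    apply Subtype.ext
    have h3 : ((Polynomial.aeval (IntermediateField.AdjoinSimple.gen K θ) (A.map (toAdj t)) :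
        IntermediateField.adjoin K {θ}) : ℂ) = Polynomial.aeval θ (A.map (toAdj t)) := by
      have h4 := Polynomial.aeval_algebraMap_apply ℂ (IntermediateField.AdjoinSimple.gen K θ)
        (A.map (toAdj t))
      rw [IntermediateField.AdjoinSimple.algebraMap_gen] at h4
      exact h4.symm
    rw [h3, ← hxA]
    rfl
  have e2 := congrArg χ e1
  rw [map_mul, AlgHom.commutes, ← Polynomial.aeval_algHom_apply, hχ] at e2
  have e3 : algebraMap K ℚ_[p] (toAdj t D) = ((φ D : ℤ_[p]) : ℚ_[p]) := hψ D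
  have e4 : Polynomial.aeval (z : ℚ_[p]) (A.map (toAdj t)) = (((A.map φ).eval z : ℤ_[p]) : ℚ_[p]) := by
    rw [Polynomial.aeval_def, Polynomial.eval₂_eq_eval_map, Polynomial.map_map]
    have h5 : (algebraMap K ℚ_[p]).comp (toAdj t) = (PadicInt.Coe.ringHom (p := p)).comp φ := hh
    rw [h5, ← Polynomial.map_map]
    have : (z : ℚ_[p]) = PadicInt.Coe.ringHom z := rfl
    rw [this, Polynomial.eval_map_apply]
    rfl
  rw [e3, e4] at e2
  have hu : ‖φ D‖ = 1 := by
    have h6 : PadicInt.toZMod (φ D) = ((MvPolynomial.eval a D : ℤ) : ZMod p) := by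
      have := congrArg (fun f : MvPolynomial (Fin r) ℤ →+* ZMod p => f D) hcomp
      simpa using this
    refine PadicInt.isUnit_iff.1 (by
      by_contra hx0
      apply hD
      rw [← ZMod.intCast_zmod_eq_zero_iff_dvd, ← h6, ← RingHom.mem_ker, PadicInt.ker_toZMod]
      exact (IsLocalRing.mem_maximalIdeal _).2 hx0)
  have e5 := congrArg norm e2
  rw [norm_mul] at e5
  have e6 : ‖((φ D : ℤ_[p]) : ℚ_[p])‖ = 1 := (PadicInt.norm_def (z := φ D)).symm.trans hu
  rw [e6, one_mul] at e5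
  show ‖χ y‖ ≤ 1
  rw [e5]
  exact PadicInt.norm_le_one _

end

/-- The primes of degree one are infinite in number. -/
theorem degOne_infinite (K : Type) [Field K] [NumberField K] (S : Finset ℕ) :
    {p : ℕ | DegOne K p ∧ p ∉ S}.Infinite := by
  classical
  intro hfin
  obtain ⟨c, hc, C, hC⟩ := recip_deg_one K (sum_ideals K)
  obtain ⟨d₀, hd₀⟩ := sum_recip_of_rate (DegOne K) (fun p hp => hp.1) c C hc hC
    ((hfin.toFinset ∪ S).card + 1)
  have h1 := hd₀ d₀ le_rfl
  have h2 : ((Finset.range (d₀ + 1)).filter (fun p => DegOne K p ∧ ¬ p ∣ d₀ ∧ 8 * p ≤ d₀)) ⊆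
      hfin.toFinset ∪ S := by
    intro p hp
    obtain ⟨-, h3, -⟩ := Finset.mem_filter.1 hp
    by_cases h4 : p ∈ S
    · exact Finset.mem_union_right _ h4
    · exact Finset.mem_union_left _ (hfin.mem_toFinset.2 ⟨h3, h4⟩)
  have h5 : ∑ p ∈ (Finset.range (d₀ + 1)).filter
      (fun p => DegOne K p ∧ ¬ p ∣ d₀ ∧ 8 * p ≤ d₀), 1 / (p : ℝ) ≤
      ((Finset.range (d₀ + 1)).filter (fun p => DegOne K p ∧ ¬ p ∣ d₀ ∧ 8 * p ≤ d₀)).card := by
    rw [← nsmul_one, ← Finset.sum_const]
    apply Finset.sum_le_sum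
    intro p hp
    obtain ⟨-, h3, -⟩ := Finset.mem_filter.1 hp
    have h1 : (1 : ℝ) ≤ p := by exact_mod_cast h3.1.one_le
    rw [div_le_one (by linarith)]
    exact h1
  have h6 : (((Finset.range (d₀ + 1)).filter
      (fun p => DegOne K p ∧ ¬ p ∣ d₀ ∧ 8 * p ≤ d₀)).card : ℝ) ≤ (hfin.toFinset ∪ S).card := by
    exact_mod_cast Finset.card_le_card h2
  linarith

/-- Embeddings of finitely generated subfields of `ℂ`, integral on the generators. -/
theorem exists_local' (s : Finset ℂ) :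
    {p : ℕ | ∃ _ : Fact p.Prime, ∃ χ : Subfield.closure (s : Set ℂ) →+* ℚ_[p],
      ∀ x : Subfield.closure (s : Set ℂ), (x : ℂ) ∈ s → ‖χ x‖ ≤ 1}.Infinite := by
  classical
  obtain ⟨r, t, θ, P, u, v, g, h, ht, hg, hh, hθ, hP, hbez, hs⟩ := exists_presentation s
  choose! D A hD hA using fun x (hx : x ∈ s) => exists_frac ht hθ (hs x hx)
  have hprod : (∏ x ∈ s, D x) ≠ 0 := Finset.prod_ne_zero_iff.2 fun x hx => hD x hx
  obtain ⟨a, ha⟩ := T15.exists_eval_ne (g * h * ∏ x ∈ s, D x) (mul_ne_zero (mul_ne_zero hg hh) hprod)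
  rw [map_mul, map_mul] at ha
  have hga : MvPolynomial.eval a g ≠ 0 := left_ne_zero_of_mul (left_ne_zero_of_mul ha)
  have hha : MvPolynomial.eval a h ≠ 0 := right_ne_zero_of_mul (left_ne_zero_of_mul ha)
  have hDa : MvPolynomial.eval a (∏ x ∈ s, D x) ≠ 0 := right_ne_zero_of_mul ha
  have hinj := T15.toAdj_injective ht
  have hgt : toAdj t g ≠ 0 := by
    intro h0
    exact hg (hinj (by rw [h0, map_zero]))
  have hnat : P.natDegree = (minpoly (IntermediateField.adjoin ℚ (Set.range t)) θ).natDegree := by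
    rw [← Polynomial.natDegree_map_eq_of_injective hinj, hP, Polynomial.natDegree_C_mul hgt]
  have hlead : P.leadingCoeff = g := by
    apply hinj
    rw [← Polynomial.leadingCoeff_map_of_injective hinj, hP, Polynomial.leadingCoeff_mul,
      Polynomial.leadingCoeff_C, (minpoly.monic hθ).leadingCoeff, mul_one]
  have hdeg : 0 < (P.map (MvPolynomial.eval a)).natDegree := by
    rw [Polynomial.natDegree_map_of_leadingCoeff_ne_zero _ (by rw [hlead]; exact hga), hnat]
    exact minpoly.natDegree_pos hθ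
  have hb : u.map (MvPolynomial.eval a) * P.map (MvPolynomial.eval a) +
      v.map (MvPolynomial.eval a) * Polynomial.derivative (P.map (MvPolynomial.eval a)) =
      Polynomial.C (MvPolynomial.eval a h) := by
    rw [Polynomial.derivative_map, ← Polynomial.map_mul, ← Polynomial.map_mul,
      ← Polynomial.map_add, hbez, Polynomial.map_C]
  obtain ⟨K, hK1, hK2, S, hS⟩ := exists_simple_root _ _ _ _ hha hdeg hb
  have hinf := degOne_infinite K (S ∪ (MvPolynomial.eval a (∏ x ∈ s, D x)).natAbs.primeFactors)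
  apply hinf.mono
  rintro p ⟨hp1, hp2⟩
  rw [Finset.mem_union, not_or] at hp2
  obtain ⟨hpS, hpD⟩ := hp2
  haveI : Fact p.Prime := ⟨hp1.1⟩
  obtain ⟨b, hb1, hb2⟩ := hS p hpS hp1
  obtain ⟨t', ht', ht'a⟩ := exists_indep p r a
  obtain ⟨χ, hχ⟩ := core' ht hg hθ hP hs a hb1 hb2 t' ht' ht'a
  refine ⟨inferInstance, χ, fun x hx => hχ x (D x) (A x) ?_ (hA _ hx)⟩
  intro hdv
  apply hpD
  rw [Nat.mem_primeFactors]
  refine ⟨hp1.1, ?_, ?_⟩
  · rw [← Int.natCast_dvd_natCast, Int.dvd_natAbs]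
    refine hdv.trans ?_
    rw [map_prod]
    exact Finset.dvd_prod_of_mem (fun x => MvPolynomial.eval a (D x)) hx
  · exact Int.natAbs_ne_zero.2 hDa

/-- **Finitely generated fields of characteristic zero in `ℚ_p`, with integral elements.** -/
theorem embed_integral {k : Type} [Field k] [CharZero k] (hk : FG k) (T : Finset k) :
    {p : ℕ | ∃ _ : Fact p.Prime, ∃ φ : k →+* ℚ_[p], ∀ x ∈ T, ‖φ x‖ ≤ 1}.Infinite := by
  classical
  haveI := hk.countable
  obtain ⟨φ⟩ := exists_embed k
  obtain ⟨s, hs⟩ := hk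
  have hmap : ∀ x : k, φ x ∈ Subfield.closure (((s ∪ T).image φ : Finset ℂ) : Set ℂ) := by
    intro x
    have h1 : (Subfield.closure (s : Set k)).map φ ≤
        Subfield.closure (((s ∪ T).image φ : Finset ℂ) : Set ℂ) := by
      rw [RingHom.map_field_closure]
      apply Subfield.closure_mono
      rw [Finset.coe_image]
      apply Set.image_mono
      simp
    apply h1
    rw [Subfield.mem_map]
    exact ⟨x, by rw [hs]; trivial, rfl⟩
  apply (exists_local' ((s ∪ T).image φ)).mono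
  rintro p ⟨hp, χ, hχ⟩
  refine ⟨hp, χ.comp (φ.codRestrict _ hmap), fun x hx => ?_⟩
  apply hχ
  show φ x ∈ _
  rw [Finset.mem_image]
  exact ⟨x, Finset.mem_union_right _ hx, rfl⟩

end Pool.Agent.Q308.TC
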