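import Pool.Agent.Q308.TC.Span

/-!
Pairs of integer combinations: linear forms and coprimality.
-/

set_option autoImplicit false

open Polynomial Pool.Agent.Q126.TD Filter Topology

namespace Pool.Agent.Q308.TC

variable {κ : Type} [Fintype κ] {k : Type} [Field k]

/-- the two parts of a vector -/
def left (v : κ ⊕ κ → ℤ) : κ → ℤ := fun i => v (Sum.inl i)
def right (v : κ ⊕ κ → ℤ) : κ → ℤ := fun i => v (Sum.inr i)

theorem comb_sum (b b' : κ → k[X]) (v : κ ⊕ κ → ℤ) :
    comb (Sum.elim b b') v = comb b (left v) + comb b' (right v) := by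
  unfold comb left right
  rw [Fintype.sum_sum_type]
  simp only [Sum.elim_inl, Sum.elim_inr]

theorem comb_mul (b : κ → k[X]) (f : k[X]) (v : κ → ℤ) :
    comb (fun i => f * b i) v = f * comb b v := by
  unfold comb
  rw [Finset.mul_sum]
  exact Finset.sum_congr rfl fun i _ => by ring

theorem spans_form {m : ℕ} {b : κ → k[X]} (hb : Spans m b) {u w : k} (huw : u ≠ 0 ∨ w ≠ 0) :
    Spans m (Sum.elim (fun i => C u * b i) (fun i => C w * b i)) := by
  refine ⟨?_, fun j => ?_⟩
  · rintro (i | i)
    · exact (natDegree_C_mul_le _ _).trans (hb.1 i)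
    · exact (natDegree_C_mul_le _ _).trans (hb.1 i)
  · obtain ⟨c, hc⟩ := hb.2 j
    rcases huw with h | h
    · refine ⟨Sum.elim (fun i => c i * u⁻¹) (fun _ => 0), ?_⟩
      rw [Fintype.sum_sum_type]
      simp only [Sum.elim_inl, Sum.elim_inr, C_0, zero_mul, Finset.sum_const_zero, add_zero]
      rw [← hc]
      refine Finset.sum_congr rfl fun i _ => ?_
      rw [← mul_assoc, ← C_mul, inv_mul_cancel_right₀ h]
    · refine ⟨Sum.elim (fun _ => 0) (fun i => c i * w⁻¹), ?_⟩
      rw [Fintype.sum_sum_type]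
      simp only [Sum.elim_inl, Sum.elim_inr, C_0, zero_mul, Finset.sum_const_zero, zero_add]
      rw [← hc]
      refine Finset.sum_congr rfl fun i _ => ?_
      rw [← mul_assoc, ← C_mul, inv_mul_cancel_right₀ h]

theorem spans_shift {m : ℕ} {b : κ → k[X]} (hb : Spans m b) :
    Spans (m + 1) (Sum.elim b (fun i => X * b i)) := by
  refine ⟨?_, fun j => ?_⟩
  · rintro (i | i)
    · exact (hb.1 i).trans (Nat.le_succ m)
    · refine natDegree_mul_le.trans ?_
      rw [natDegree_X]
      have := hb.1 i
      show 1 + _ ≤ _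
      omega
  · by_cases hj : (j : ℕ) < m + 1
    · obtain ⟨c, hc⟩ := hb.2 ⟨j, hj⟩
      refine ⟨Sum.elim c (fun _ => 0), ?_⟩
      rw [Fintype.sum_sum_type]
      simp only [Sum.elim_inl, Sum.elim_inr, C_0, zero_mul, Finset.sum_const_zero, add_zero]
      exact hc
    · obtain ⟨c, hc⟩ := hb.2 (Fin.last m)
      refine ⟨Sum.elim (fun _ => 0) c, ?_⟩
      rw [Fintype.sum_sum_type]
      simp only [Sum.elim_inl, Sum.elim_inr, C_0, zero_mul, Finset.sum_const_zero, zero_add]
      have h1 : (j : ℕ) = m + 1 := by omega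
      have h2 : (X : k[X]) ^ m = ∑ i, C (c i) * b i := hc.symm
      rw [h1, pow_succ', h2, Finset.mul_sum]
      exact Finset.sum_congr rfl fun i _ => by ring

/-- **Almost all pairs: a linear form is irreducible of degree `m`.** -/
theorem form_full [CharZero k] (hk : FG k) {m : ℕ} (hm : 0 < m) {b : κ → k[X]} (hb : Spans m b)
    {u w : k} (huw : u ≠ 0 ∨ w ≠ 0) :
    Full {v : κ ⊕ κ → ℤ | Irreducible (C u * comb b (left v) + C w * comb b (right v)) ∧
      (C u * comb b (left v) + C w * comb b (right v)).natDegree = m} := by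
  refine (span_full hk hm (spans_form hb huw) (irreducible_X)).mono ?_
  rintro v ⟨h1, h2⟩
  rw [X_comp] at h1
  rw [comb_sum, comb_mul, comb_mul] at h1 h2
  exact ⟨h1, h2⟩

theorem natDegree_comb {m : ℕ} {b : κ → k[X]} (hb : Spans m b) (v : κ → ℤ) :
    (comb b v).natDegree ≤ m := by
  unfold comb
  apply natDegree_sum_le_of_forall_le
  intro i _
  exact (natDegree_C_mul_le _ _).trans (hb.1 i)

/-- **Almost all pairs are coprime.** -/
theorem coprime_full [CharZero k] (hk : FG k) {m : ℕ} (hm : 0 < m) {b : κ → k[X]} (hb : Spans m b) :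
    Full {v : κ ⊕ κ → ℤ | IsCoprime (comb b (left v)) (comb b (right v))} := by
  have h1 := span_full hk (Nat.succ_pos m) (spans_shift hb) (irreducible_X (R := k))
  have h2 := form_full hk hm hb (u := 1) (w := 1) (Or.inl one_ne_zero)
  refine (h1.inter h2).mono ?_
  rintro v ⟨⟨v1, v2⟩, v3, -⟩
  rw [X_comp] at v1
  rw [comb_sum, comb_mul] at v1 v2
  rw [C_1, one_mul, one_mul] at v3
  set q := comb b (left v) with hq
  set r := comb b (right v) with hr
  have dq : q.natDegree ≤ m := natDegree_comb hb _
  have dr : r.natDegree ≤ m := natDegree_comb hb _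
  show IsCoprime q r
  refine isCoprime_of_irreducible_dvd ?_ ?_
  · rintro ⟨h3, h4⟩
    rw [h3, h4, add_zero] at v3
    exact not_irreducible_zero v3
  · intro z hz hzq hzr
    have h3 : z ∣ q + X * r := dvd_add hzq (dvd_mul_of_dvd_right hzr X)
    have h4 : Associated z (q + X * r) := (hz.dvd_irreducible_iff_associated v1).1 h3
    have h5 : z.natDegree = m + 1 := by
      rw [natDegree_eq_of_degree_eq (degree_eq_degree_of_associated h4), v2]
    by_cases h6 : q = 0
    · have h7 : r ≠ 0 := by
        rintro h7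
        rw [h6, h7, add_zero] at v3
        exact not_irreducible_zero v3
      have h8 := natDegree_le_of_dvd hzr h7
      omega
    · have h8 := natDegree_le_of_dvd hzq h6
      omega

end Pool.Agent.Q308.TC
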