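import Pool.Agent.Q308.TC.Emb
import Pool.Agent.Q126.TD.Full
import Pool.Agent.Q126.TD.Pairs

/-!
For almost all integer polynomials `g` the polynomial `π(g)` is irreducible over a finitely generated
field.
-/

set_option autoImplicit false

open Polynomial Pool.Agent.Q126.TD Filter Topology

namespace Pool.Agent.Q308.TC

/-- `π(g)` is irreducible if `g - α` is irreducible for a root `α` of `π` in a larger field. -/
theorem irr_comp {k L : Type} [Field k] [Field L] (φ : k →+* L) {π g : k[X]}
    (hπ : Irreducible π) {α : L} (hα : (π.map φ).eval α = 0)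
    (hg : Irreducible (g.map φ - C α)) : Irreducible (π.comp g) := by
  have hg0 : 0 < g.natDegree := by
    by_contra h
    have h1 : g.natDegree = 0 := by omega
    rw [eq_C_of_natDegree_eq_zero h1, map_C, ← C_sub] at hg
    by_cases h2 : φ (g.coeff 0) - α = 0
    · rw [h2, C_0] at hg
      exact not_irreducible_zero hg
    · exact hg.not_isUnit (isUnit_C.2 (isUnit_iff_ne_zero.2 h2))
  have hgne : g ≠ 0 := by
    rintro rfl
    simp at hg0
  set c := g.leadingCoeff with hc
  have hc0 : c ≠ 0 := leadingCoeff_ne_zero.2 hgne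
  letI : Invertible c := invertibleOfNonzero hc0
  set f0 := π.comp (C c * X) with hf0
  have hf0i : Irreducible f0 := by
    have h1 := (MulEquiv.irreducible_iff (algEquivCMulXAddC c (0 : k))).2 hπ
    have h2 : (algEquivCMulXAddC c (0 : k)) π = f0 := by
      rw [algEquivCMulXAddC_apply, C_0, add_zero]
      rfl
    rwa [h2] at h1
  set u := f0.leadingCoeff⁻¹ with hu
  have hu0 : u ≠ 0 := inv_ne_zero (leadingCoeff_ne_zero.2 hf0i.ne_zero)
  have huu : IsUnit (C u : k[X]) := isUnit_C.2 (isUnit_iff_ne_zero.2 hu0)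
  have hfm : (C u * f0).Monic := by
    rw [Monic, leadingCoeff_mul, leadingCoeff_C, hu,
      inv_mul_cancel₀ (leadingCoeff_ne_zero.2 hf0i.ne_zero)]
  have hfi : Irreducible (C u * f0) := (irreducible_isUnit_mul huu).2 hf0i
  have hgm : (C c⁻¹ * g).Monic := by
    rw [Monic, leadingCoeff_mul, leadingCoeff_C, ← hc, inv_mul_cancel₀ hc0]
  have hcomp : (C u * f0).comp (C c⁻¹ * g) = C u * π.comp g := by
    rw [mul_comp, C_comp, hf0, comp_assoc, mul_comp, C_comp, X_comp, ← mul_assoc, ← C_mul,
      mul_inv_cancel₀ hc0, C_1, one_mul]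
  have key : Irreducible ((C u * f0).comp (C c⁻¹ * g)) := by
    refine irreducible_comp hfm hgm hfi ?_
    intro E _ _ x hx
    letI : Algebra k L := φ.toAlgebra
    have hφ : algebraMap k L = φ := rfl
    have hxi : IsIntegral k x := by
      by_contra h
      rw [minpoly.eq_zero h] at hx
      exact hfi.ne_zero hx.symm
    have hφc : φ c ≠ 0 := (map_ne_zero φ).2 hc0
    have hroot : (φ c)⁻¹ * α ∈ (minpoly k x).aroots L := by
      rw [mem_aroots]
      refine ⟨minpoly.ne_zero hxi, ?_⟩
      rw [hx, aeval_def, hφ, eval₂_mul, eval₂_C, hf0, eval₂_comp, eval₂_mul, eval₂_C, eval₂_X,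
        mul_inv_cancel_left₀ hφc, eval₂_eq_eval_map, hα, mul_zero]
    let χ : IntermediateField.adjoin k {x} →ₐ[k] L :=
      (IntermediateField.algHomAdjoinIntegralEquiv k hxi).symm ⟨_, hroot⟩
    have hχ : χ (IntermediateField.AdjoinSimple.gen k x) = (φ c)⁻¹ * α :=
      IntermediateField.algHomAdjoinIntegralEquiv_symm_apply_gen k hxi _
    apply irreducible_of_map (χ : IntermediateField.adjoin k {x} →+* L)
    have h3 : (χ : IntermediateField.adjoin k {x} →+* L).comp
        (algebraMap k (IntermediateField.adjoin k {x})) = φ := χ.comp_algebraMap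
    rw [Polynomial.map_sub, Polynomial.map_map, h3, Polynomial.map_mul, map_C, map_C]
    have h4 : (χ : IntermediateField.adjoin k {x} →+* L) (IntermediateField.AdjoinSimple.gen k x) =
        (φ c)⁻¹ * α := hχ
    rw [h4, map_inv₀, C_mul, ← mul_sub]
    exact (irreducible_isUnit_mul (isUnit_C.2 (isUnit_iff_ne_zero.2 (inv_ne_zero hφc)))).2 hg
  rw [hcomp] at key
  exact (irreducible_isUnit_mul huu).1 key

section

variable {κ : Type} [Fintype κ]

/-- Translation of the constant coefficient. -/
theorem pol_shift {R : Type} [CommRing R] {m : ℕ} (v : Fin (m + 1) → R) (c : R) :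
    pol (fun i => v i - if (i : ℕ) = 0 then c else 0) = pol v - C c := by
  have h : ∀ i : Fin (m + 1), C (v i - if (i : ℕ) = 0 then c else 0) * X ^ (i : ℕ) =
      C (v i) * X ^ (i : ℕ) - if (i : ℕ) = 0 then C c else 0 := by
    intro i
    by_cases hi : (i : ℕ) = 0
    · rw [if_pos hi, if_pos hi, hi, pow_zero, mul_one, mul_one, C_sub]
    · rw [if_neg hi, if_neg hi, sub_zero, sub_zero]
  unfold pol
  simp_rw [h]
  rw [Finset.sum_sub_distrib]
  congr 1
  rw [Finset.sum_eq_single (0 : Fin (m + 1))]
  · simp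
  · intro i _ hi
    rw [if_neg]
    intro h
    exact hi (Fin.ext h)
  · intro h
    exact absurd (Finset.mem_univ _) h

theorem Uniform.shift {p : ℕ} {m : ℕ} {q : (κ → ZMod p) → (Fin (m + 1) → ZMod p)}
    (h : Uniform p q) (s : Fin (m + 1) → ZMod p) : Uniform p fun w i => q w i - s i := by
  obtain ⟨A, e, he⟩ := h
  refine ⟨A, e.trans (Equiv.prodCongr (Equiv.refl A) (Equiv.subRight s)), fun w => ?_⟩
  show (Equiv.subRight s) (e w).2 = _
  rw [he]
  rfl

variable {k : Type} [Field k] [CharZero k]

theorem FG.adjoinRoot {k : Type} [Field k] (h : FG k) (π : k[X]) [Fact (Irreducible π)] :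
    FG (AdjoinRoot π) := by
  classical
  obtain ⟨s, hs⟩ := h
  refine ⟨insert (AdjoinRoot.root π) (s.image (AdjoinRoot.of π)), ?_⟩
  set F := Subfield.closure ((insert (AdjoinRoot.root π) (s.image (AdjoinRoot.of π)) :
    Finset (AdjoinRoot π)) : Set (AdjoinRoot π)) with hF
  have h1 : ∀ x : k, AdjoinRoot.of π x ∈ F := by
    intro x
    have h2 : (Subfield.closure (s : Set k)).map (AdjoinRoot.of π) ≤ F := by
      rw [RingHom.map_field_closure]
      apply Subfield.closure_mono
      rw [Finset.coe_insert, Finset.coe_image]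
      exact Set.subset_insert _ _
    apply h2
    rw [Subfield.mem_map]
    exact ⟨x, by rw [hs]; trivial, rfl⟩
  have h2 : AdjoinRoot.root π ∈ F := by
    apply Subfield.subset_closure
    rw [Finset.coe_insert]
    exact Set.mem_insert _ _
  rw [eq_top_iff]
  intro x _
  induction x using AdjoinRoot.induction_on with
  | ih q =>
    rw [← AdjoinRoot.aeval_eq, aeval_eq_sum_range]
    refine sum_mem fun i _ => ?_
    rw [Algebra.smul_def]
    exact mul_mem (h1 _) (pow_mem h2 _)

/-- **For almost all members `g` of an equidistributed family of integer polynomials, `π(g)` is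
irreducible.** -/
theorem comp_full (hk : FG k) {m : ℕ} (hm : 0 < m) {Q : (κ → ℤ) → ℤ[X]}
    (hQ : Equidistributed m Q) {π : k[X]} (hπ : Irreducible π) :
    Full {v | Irreducible (π.comp ((Q v).map (Int.castRingHom k)))} := by
  classical
  haveI : Fact (Irreducible π) := ⟨hπ⟩
  haveI : CharZero (AdjoinRoot π) :=
    charZero_of_injective_algebraMap (AdjoinRoot.of π).injective
  refine full_of_primes _ (1 / (24 * m : ℝ)) (by positivity) ?_
  have hinf := (embed_integral (FG.adjoinRoot hk π) {AdjoinRoot.root π}).sdiff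
    (Set.finite_lt_nat 11)
  apply hinf.mono
  rintro p ⟨⟨hpp, φ, hφ⟩, hp⟩
  have hp11 : 11 ≤ p := not_lt.1 hp
  obtain ⟨q, hq, hred⟩ := hQ.2 p hpp.out hp11
  set α : ℤ_[p] := ⟨φ (AdjoinRoot.root π), hφ _ (Finset.mem_singleton_self _)⟩ with hα
  set s : Fin (m + 1) → ZMod p := fun i => if (i : ℕ) = 0 then PadicInt.toZMod α else 0 with hs
  refine ⟨hpp.out, _, (Uniform.shift hq s).count (count1 hp11 hm), ?_⟩
  intro v hv
  obtain ⟨h1, h2⟩ := hv
  change (pol (fun i => q (fun i => ((v i : ℤ) : ZMod p)) i - s i)).natDegree = m at h1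
  change Irreducible (pol (fun i => q (fun i => ((v i : ℤ) : ZMod p)) i - s i)) at h2
  simp only [hs] at h1 h2
  rw [pol_shift, ← hred] at h1 h2
  set f : ℤ_[p][X] := (Q v).map (Int.castRingHom ℤ_[p]) - C α with hf
  have hfr : f.map (PadicInt.toZMod (p := p)) =
      (Q v).map (Int.castRingHom (ZMod p)) - C (PadicInt.toZMod α) := by
    rw [hf, Polynomial.map_sub, map_toZMod, map_C]
  rw [← hfr] at h1 h2
  have hfd : f.natDegree = m := by
    apply le_antisymm
    · refine (natDegree_sub_le _ _).trans (max_le (natDegree_map_le.trans (hQ.1 v)) ?_)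
      rw [natDegree_C]
      exact Nat.zero_le m
    · rw [← h1]
      exact natDegree_map_le
  have h4 := irr_of_red (f := f) (by rw [h1, hfd]) h2
  show Irreducible (π.comp ((Q v).map (Int.castRingHom k)))
  refine irr_comp (φ.comp (AdjoinRoot.of π)) hπ (α := φ (AdjoinRoot.root π)) ?_ ?_
  · rw [← Polynomial.map_map, Polynomial.eval_map_apply, ← eval₂_eq_eval_map,
      AdjoinRoot.eval₂_root, map_zero]
  · have e : f.map (algebraMap ℤ_[p] ℚ_[p]) = ((Q v).map (Int.castRingHom k)).map
        (φ.comp (AdjoinRoot.of π)) - C (φ (AdjoinRoot.root π)) := by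
      rw [hf, Polynomial.map_sub, Polynomial.map_map, Polynomial.map_map, map_C]
      congr 2
      exact RingHom.ext_int _ _
    rw [← e]
    exact h4

omit [CharZero k] in
theorem full_univ : Full (Set.univ : Set (κ → ℤ)) := by
  unfold Full
  have h : ∀ H : ℕ, ((Box κ H ∩ Set.univ).ncard : ℝ) / (2 * H + 1 : ℝ) ^ Fintype.card κ = 1 := by
    intro H
    rw [Set.inter_univ, box_ncard]
    push_cast
    exact div_self (by positivity)
  simp only [h]
  exact tendsto_const_nhds

theorem full_biInter {ι : Type} (s : Finset ι) (S : ι → Set (κ → ℤ)) (h : ∀ i ∈ s, Full (S i)) :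
    Full {v | ∀ i ∈ s, v ∈ S i} := by
  classical
  induction s using Finset.induction_on with
  | empty =>
    refine full_univ.mono fun v _ => ?_
    intro i hi
    exact absurd hi (Finset.notMem_empty i)
  | insert a s _ ih =>
    refine ((h a (Finset.mem_insert_self a s)).inter
      (ih fun i hi => h i (Finset.mem_insert_of_mem hi))).mono ?_
    rintro v ⟨h1, h2⟩ i hi
    rcases Finset.mem_insert.1 hi with rfl | hi
    · exact h1
    · exact h2 i hi

/-- **Almost all `g` keep all the irreducible divisors of `p` irreducible.** -/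
theorem keeps_full (hk : FG k) {m : ℕ} (hm : 0 < m) {Q : (κ → ℤ) → ℤ[X]}
    (hQ : Equidistributed m Q) {P : k[X]} (hP : P ≠ 0) :
    Full {v | ∀ π : k[X], Irreducible π → π ∣ P →
      Irreducible (π.comp ((Q v).map (Int.castRingHom k)))} := by
  classical
  have h := full_biInter (UniqueFactorizationMonoid.normalizedFactors P).toFinset
    (fun π : k[X] => {v | Irreducible (π.comp ((Q v).map (Int.castRingHom k)))}) (by
      intro π hπ
      exact comp_full hk hm hQ (UniqueFactorizationMonoid.irreducible_of_normalized_factor π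
        (Multiset.mem_toFinset.1 hπ)))
  refine h.mono ?_
  intro v hv π hπ hd
  obtain ⟨ρ, hρ, hass⟩ := UniqueFactorizationMonoid.exists_mem_normalizedFactors_of_dvd hP hπ hd
  have h1 := hv ρ (Multiset.mem_toFinset.2 hρ)
  have h2 : Associated (π.comp ((Q v).map (Int.castRingHom k)))
      (ρ.comp ((Q v).map (Int.castRingHom k))) :=
    hass.map (compRingHom ((Q v).map (Int.castRingHom k)))
  exact h2.symm.irreducible h1

end

theorem equi_id {m : ℕ} : Equidistributed m (fun v : Fin (m + 1) → ℤ => pol v) := by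
  refine ⟨fun v => natDegree_pol_le _, fun p hp _ => ?_⟩
  refine ⟨fun w => w, ⟨Unit, (Equiv.punitProd _).symm, fun w => rfl⟩, fun v => ?_⟩
  rw [map_pol]
  rfl

end Pool.Agent.Q308.TC
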