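import Pool.Agent.Q308.TC.Irr

/-!
Almost all integer combinations of polynomials over a finitely generated field which span the
polynomials of degree at most `m` are irreducible, also after the composition with a fixed irreducible
polynomial.
-/

set_option autoImplicit false

open Polynomial Pool.Agent.Q126.TD Filter Topology

namespace Pool.Agent.Q308.TC

variable {κ : Type} [Fintype κ]

/-- Surjective linear maps have fibres of the same size. -/
theorem uniform_of_surj {p : ℕ} [Fact p.Prime] {m : ℕ}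
    (f : (κ → ZMod p) →ₗ[ZMod p] (Fin (m + 1) → ZMod p)) (hf : Function.Surjective f) :
    Uniform p f := by
  obtain ⟨g, hg⟩ := f.exists_rightInverse_of_surjective (LinearMap.range_eq_top.2 hf)
  have hg' : ∀ y, f (g y) = y := fun y => LinearMap.congr_fun hg y
  refine ⟨LinearMap.ker f, ⟨fun w => (⟨w - g (f w), ?_⟩, f w), fun x => x.1 + g x.2, ?_, ?_⟩,
    fun w => rfl⟩
  · rw [LinearMap.mem_ker, map_sub, hg', sub_self]
  · intro w
    show w - g (f w) + g (f w) = w
    rw [sub_add_cancel]
  · rintro ⟨⟨a, ha⟩, y⟩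
    have h1 : f (a + g y) = y := by
      rw [map_add, LinearMap.mem_ker.1 ha, zero_add, hg']
    refine Prod.ext (Subtype.ext ?_) h1
    show a + g y - g (f (a + g y)) = a
    rw [h1, add_sub_cancel_right]

variable {k : Type} [Field k]

/-- The polynomials `b i` have degree at most `m` and span the polynomials of degree at most `m`. -/
def Spans (m : ℕ) (b : κ → k[X]) : Prop :=
  (∀ i, (b i).natDegree ≤ m) ∧ ∀ j : Fin (m + 1), ∃ c : κ → k, ∑ i, C (c i) * b i = X ^ (j : ℕ)

/-- The integer combination of the `b i` with the coefficients `v i`. -/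
noncomputable def comb (b : κ → k[X]) (v : κ → ℤ) : k[X] := ∑ i, C ((v i : ℤ) : k) * b i

/-- **Almost all integer combinations `g` of a spanning family are irreducible, and `π(g)` is
irreducible.** -/
theorem span_full [CharZero k] (hk : FG k) {m : ℕ} (hm : 0 < m) {b : κ → k[X]} (hb : Spans m b)
    {π : k[X]} (hπ : Irreducible π) :
    Full {v : κ → ℤ | Irreducible (π.comp (comb b v)) ∧ (comb b v).natDegree = m} := by
  classical
  haveI : Fact (Irreducible π) := ⟨hπ⟩
  haveI : CharZero (AdjoinRoot π) :=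
    charZero_of_injective_algebraMap (AdjoinRoot.of π).injective
  refine full_of_primes _ (1 / (24 * m : ℝ)) (by positivity) ?_
  choose c hc using hb.2
  let T : Finset (AdjoinRoot π) := {AdjoinRoot.root π} ∪
    (Finset.univ.image fun x : κ × Fin (m + 1) => AdjoinRoot.of π ((b x.1).coeff x.2)) ∪
    (Finset.univ.image fun x : Fin (m + 1) × κ => AdjoinRoot.of π (c x.1 x.2))
  have hinf := (embed_integral (FG.adjoinRoot hk π) T).sdiff (Set.finite_lt_nat 11)
  apply hinf.mono
  rintro p ⟨⟨hpp, φ, hφ⟩, hp⟩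
  have hp11 : 11 ≤ p := not_lt.1 hp
  have hφr : ‖φ (AdjoinRoot.root π)‖ ≤ 1 := hφ _ (by simp [T])
  have hφb : ∀ (i : κ) (j : Fin (m + 1)), ‖φ (AdjoinRoot.of π ((b i).coeff j))‖ ≤ 1 := by
    intro i j
    apply hφ
    simp only [T, Finset.mem_union, Finset.mem_image, Finset.mem_univ, true_and]
    exact Or.inl (Or.inr ⟨(i, j), rfl⟩)
  have hφc : ∀ (j : Fin (m + 1)) (i : κ), ‖φ (AdjoinRoot.of π (c j i))‖ ≤ 1 := by
    intro j i
    apply hφ
    simp only [T, Finset.mem_union, Finset.mem_image, Finset.mem_univ, true_and]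
    exact Or.inr ⟨(j, i), rfl⟩
  set α : ℤ_[p] := ⟨φ (AdjoinRoot.root π), hφr⟩ with hα
  set ψ : k →+* ℚ_[p] := φ.comp (AdjoinRoot.of π) with hψ
  let β : κ → Fin (m + 1) → ℤ_[p] := fun i j => ⟨ψ ((b i).coeff j), hφb i j⟩
  let γ : Fin (m + 1) → κ → ℤ_[p] := fun j i => ⟨ψ (c j i), hφc j i⟩
  -- the relations
  have hrel : ∀ j l : Fin (m + 1), ∑ i, γ j i * β i l = if l = j then 1 else 0 := by
    intro j l
    have h1 := congrArg (fun f : k[X] => ψ (f.coeff l)) (hc j)
    simp only [finset_sum_coeff, coeff_C_mul, coeff_X_pow, map_sum, map_mul] at h1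
    have h2 : Function.Injective (algebraMap ℤ_[p] ℚ_[p]) := IsFractionRing.injective ℤ_[p] ℚ_[p]
    apply h2
    rw [map_sum]
    have h3 : ∀ i, algebraMap ℤ_[p] ℚ_[p] (γ j i * β i l) = ψ (c j i) * ψ ((b i).coeff l) := by
      intro i
      rw [map_mul]
      rfl
    simp_rw [h3]
    rw [h1]
    by_cases h4 : l = j
    · rw [if_pos h4, if_pos (by rw [h4]), map_one, map_one]
    · rw [if_neg h4, if_neg (fun h => h4 (Fin.ext h)), map_zero, map_zero]
  -- the linear map
  let q : (κ → ZMod p) →ₗ[ZMod p] (Fin (m + 1) → ZMod p) :=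
    { toFun := fun w j => ∑ i, w i * PadicInt.toZMod (β i j)
      map_add' := fun w w' => by
        funext j
        simp only [Pi.add_apply, add_mul, Finset.sum_add_distrib]
      map_smul' := fun a w => by
        funext j
        simp only [Pi.smul_apply, smul_eq_mul, RingHom.id_apply, Finset.mul_sum, mul_assoc] }
  have hq : ∀ (w : κ → ZMod p) (j : Fin (m + 1)), q w j = ∑ i, w i * PadicInt.toZMod (β i j) :=
    fun w j => rfl
  have hsurj : Function.Surjective q := by
    intro y
    refine ⟨∑ j, y j • fun i => PadicInt.toZMod (γ j i), ?_⟩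
    rw [map_sum]
    funext l
    simp only [map_smul, Finset.sum_apply, Pi.smul_apply, smul_eq_mul, hq]
    have h1 : ∀ j : Fin (m + 1), ∑ i, PadicInt.toZMod (γ j i) * PadicInt.toZMod (β i l) =
        if l = j then (1 : ZMod p) else 0 := by
      intro j
      have h2 := congrArg PadicInt.toZMod (hrel j l)
      rw [map_sum] at h2
      simp only [map_mul] at h2
      rw [h2]
      split_ifs <;> simp
    simp_rw [h1]
    simp
  set s : Fin (m + 1) → ZMod p := fun i => if (i : ℕ) = 0 then PadicInt.toZMod α else 0 with hs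
  refine ⟨hpp.out, _, (Uniform.shift (uniform_of_surj q hsurj) s).count (count1 hp11 hm), ?_⟩
  intro v hv
  obtain ⟨h1, h2⟩ := hv
  change (pol (fun i => q (fun i => ((v i : ℤ) : ZMod p)) i - s i)).natDegree = m at h1
  change Irreducible (pol (fun i => q (fun i => ((v i : ℤ) : ZMod p)) i - s i)) at h2
  simp only [hs] at h1 h2
  rw [pol_shift] at h1 h2
  set Q : ℤ_[p][X] := pol (fun j : Fin (m + 1) => ∑ i, ((v i : ℤ) : ℤ_[p]) * β i j) with hQ
  have hQd : Q.natDegree ≤ m := natDegree_pol_le _
  have hQr : Q.map (PadicInt.toZMod (p := p)) = pol (q fun i => ((v i : ℤ) : ZMod p)) := by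
    rw [hQ, map_pol]
    congr 1
    funext j
    rw [hq, map_sum]
    exact Finset.sum_congr rfl fun i _ => by rw [map_mul, map_intCast]
  have hcd : (comb b v).natDegree ≤ m := by
    unfold comb
    apply natDegree_sum_le_of_forall_le
    intro i _
    exact (natDegree_C_mul_le _ _).trans (hb.1 i)
  have hQf : Q.map (algebraMap ℤ_[p] ℚ_[p]) = (comb b v).map ψ := by
    rw [hQ, map_pol]
    have h3 : ((comb b v).map ψ).natDegree ≤ m := by
      rw [natDegree_map]; exact hcd
    rw [← pol_coeff h3]
    congr 1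
    funext j
    rw [coeff_map, map_sum]
    unfold comb
    rw [finset_sum_coeff, map_sum]
    refine Finset.sum_congr rfl fun i _ => ?_
    rw [coeff_C_mul, map_mul, map_mul, map_intCast, map_intCast]
    rfl
  rw [← hQr] at h1 h2
  set f : ℤ_[p][X] := Q - C α with hf
  have hfr : f.map (PadicInt.toZMod (p := p)) =
      Q.map (PadicInt.toZMod (p := p)) - C (PadicInt.toZMod α) := by
    rw [hf, Polynomial.map_sub, map_C]
  rw [← hfr] at h1 h2
  have hfd : f.natDegree = m := by
    apply le_antisymm
    · refine (natDegree_sub_le _ _).trans (max_le hQd ?_)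
      rw [natDegree_C]
      exact Nat.zero_le m
    · rw [← h1]
      exact natDegree_map_le
  have h4 := irr_of_red (f := f) (by rw [h1, hfd]) h2
  refine ⟨irr_comp ψ hπ (α := φ (AdjoinRoot.root π)) ?_ ?_, ?_⟩
  · rw [hψ, ← Polynomial.map_map, Polynomial.eval_map_apply, ← eval₂_eq_eval_map,
      AdjoinRoot.eval₂_root, map_zero]
  · have e : f.map (algebraMap ℤ_[p] ℚ_[p]) = (comb b v).map ψ - C (φ (AdjoinRoot.root π)) := by
      rw [hf, Polynomial.map_sub, hQf, map_C]
      rfl
    rw [← e]
    exact h4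
  · rw [← natDegree_map ψ, ← hQf,
      natDegree_map_eq_of_injective (IsFractionRing.injective ℤ_[p] ℚ_[p])]
    rw [hf, natDegree_sub_C] at hfd
    exact hfd

end Pool.Agent.Q308.TC
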